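import Pool.Agent.Helper79.SB.Defs

set_option autoImplicit false

/-!
# PROJECT SB (MP_ad201b_nt): common language of the blocks V, G, N, L

`W` is an algebraic closure of `k` (used with `W = kbar k Ω`).  Elements of Galois groups over
subfields `F` of `W` are elements of `W ≃ₐ[k] W` lying in `F.fixingSubgroup`.
-/

open MvPolynomial IntermediateField NumberField IsDedekindDomain
open scoped TensorProduct

namespace Pool.Agent.SB

section

variable {k : Type} [Field k] {W : Type} [Field W] [Algebra k W]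

/-- the field of elements of `W` mapped into the extension `E` of `k` by the embedding `j` of `W`
into the algebraic closure of `E` (for `E = k_v`: the henselisation of `k` at `v`) -/
noncomputable def decField {E : Type} [Field E] [Algebra k E] (j : W →ₐ[k] AlgebraicClosure E) :
    IntermediateField k W :=
  (IsScalarTower.toAlgHom k E (AlgebraicClosure E)).fieldRange.comap j

theorem mem_decField {E : Type} [Field E] [Algebra k E] (j : W →ₐ[k] AlgebraicClosure E)
    (a : W) : a ∈ decField j ↔ ∃ b : E, algebraMap E (AlgebraicClosure E) b = j a :=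
  Iff.rfl

/-- the inertia group of the field `F ⊆ W` for the residue characteristic `p`: the elements of
`Gal(W/F)` fixing all roots of unity of order prime to `p` -/
def Iner (F : IntermediateField k W) (p : ℕ) : Subgroup (W ≃ₐ[k] W) where
  carrier := {γ | γ ∈ F.fixingSubgroup ∧ ∀ (ζ : W) (m : ℕ), ¬ p ∣ m → ζ ^ m = 1 → γ ζ = ζ}
  mul_mem' := by
    rintro γ δ ⟨hγ, hγ'⟩ ⟨hδ, hδ'⟩
    refine ⟨mul_mem hγ hδ, fun ζ m hm hζ => ?_⟩
    rw [AlgEquiv.mul_apply, hδ' ζ m hm hζ, hγ' ζ m hm hζ]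
  one_mem' := ⟨one_mem _, fun _ _ _ _ => rfl⟩
  inv_mem' := by
    rintro γ ⟨hγ, hγ'⟩
    exact ⟨inv_mem hγ, fun ζ m hm hζ => (AlgEquiv.symm_apply_eq γ).mpr (hγ' ζ m hm hζ).symm⟩

/-- `γ` acts on the roots of unity of order prime to `p` as `ζ ↦ ζ ^ q` -/
def ActsAs (p q : ℕ) (γ : W ≃ₐ[k] W) : Prop :=
  ∀ (ζ : W) (m : ℕ), ¬ p ∣ m → ζ ^ m = 1 → γ ζ = ζ ^ q

end

section

variable (k : Type) [Field k] {Ω : Type} [Field Ω] [Algebra k Ω]

/-- the field generated over `k` by the images in `Ω` of all finite étale algebras over `R` -/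
def etField (R : Subalgebra k Ω) : IntermediateField k Ω := adjoin k (etSet k R)

/-- the ring `k1[x, 1/(x - c 0), 1/(x - c 1), 1/(x - c 2)]` -/
def xring (k1 : IntermediateField k (kbar k Ω)) (x : Ω) (c : Fin 3 → kbar k Ω) :
    Subalgebra k Ω :=
  Algebra.adjoin k
    ({z | ∃ a ∈ k1, z = (a : Ω)} ∪ {x} ∪ {z | ∃ i, z = (x - (c i : Ω))⁻¹})

/-- a section of `Gal(Z/...) → Gal(kbar/k)` over the subgroup `D` of `Gal(kbar/k)`, acting on the
subfield `Z` of `Ω`: a homomorphism from `D` to the automorphisms of `Z` with open stabilisers,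
inducing the identity of `D` on `kbar ∩ Z` -/
structure IsSec (D : Subgroup (kbar k Ω ≃ₐ[k] kbar k Ω)) (Z : IntermediateField k Ω)
    (s : D →* (Z ≃ₐ[k] Z)) : Prop where
  cont : ∀ θ : Z, IsOpen {γ : D | s γ θ = θ}
  ind : ∀ (γ : D) (θ : kbar k Ω) (h : (θ : Ω) ∈ Z),
    ((s γ ⟨θ, h⟩ : Z) : Ω) = ((γ : kbar k Ω ≃ₐ[k] kbar k Ω) θ : kbar k Ω)

end

end Pool.Agent.SB
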