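import Pool.Agent.Helper6.SE.All

set_option autoImplicit false

/-!
# PROJECT SB, block ET (interface): étale covers, Kummer covers, normal open sets

ET1 `etSet_mono`, ET2 `etSet_trans`, ET3 `kbar_subset_etSet`, ET3b `root_mem_etSet`,
ET4 `exists_etCover`, ET5 `etCover_mul`, ET6a `coordRing_mul`, ET6b `exists_normal`,
ET7 `etCover_normal`, ET8 `exists_xring`, ET9 `kummer_mem`, all proved in `Helper6/SE`.
-/
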