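import Pool.Agent.Helper35.SN.Weight

set_option autoImplicit false

/-!
# PROJECT SB, block N (interface): the weight theorem `weight`

`v` outside a finite set depending only on `ℓ, k1, c`; `F' ⊇ k1` is a finite extension of the
henselisation `decField j`; `s` is a section over `F'` of the compositum `Z` of all finite étale
covers of `ℙ¹ ∖ {c 0, c 1, c 2, ∞}`, fixing the coordinate `x` and the function
`y = ((x - c 0) (x - c 2) / (x - c 1)) ^ (1 / ℓ)`.  Then inertia acts trivially through `s` on the
`ℓ`-th roots of the `x - c i`.  Proved in `Helper35/SN/Weight`.
-/
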