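import Pool.Agent.Helper8.BR.Defs

set_option autoImplicit false

/-!
# MP_ad201b_nt: definitions

`k` is a number field, `Ω` an algebraically closed field containing `k`.  A projective variety
`X ⊆ ℙⁿ` over `k` is given by (homogeneous coordinates `ξ` of) its generic point; its function
field is `K = k(ξ_i/ξ_j)`, and `Ω` is an algebraic closure of `K`.
-/

open MvPolynomial IntermediateField NumberField IsDedekindDomain
open scoped TensorProduct

namespace Pool.Agent.SB

open Pool.Agent.Helper8.BR

section geometry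

variable (k : Type) [Field k] {Ω : Type} [Field Ω] [Algebra k Ω] {n : ℕ}

/-- `x` are homogeneous coordinates of a point with values in the extension `E` of `k` of the
projective variety with generic point `ξ` -/
def OnX (ξ : Fin (n + 1) → Ω) {E : Type} [Field E] [Algebra k E] (x : Fin (n + 1) → E) : Prop :=
  x ≠ 0 ∧ ∀ (e : ℕ) (f : MvPolynomial (Fin (n + 1)) k), f.IsHomogeneous e →
    aeval ξ f = 0 → aeval x f = 0

/-- the function field `K` of `X` -/
def funField (ξ : Fin (n + 1) → Ω) : IntermediateField k Ω :=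
  adjoin k {z | ∃ i j, z = ξ i / ξ j}

/-- the coordinate ring of the affine open set `g ≠ 0` of `X`, `g` homogeneous of degree `e` -/
def coordRing (ξ : Fin (n + 1) → Ω) (e : ℕ) (g : MvPolynomial (Fin (n + 1)) k) :
    Subalgebra k Ω :=
  Algebra.adjoin k {z | ∃ f : MvPolynomial (Fin (n + 1)) k, f.IsHomogeneous e ∧
    z = aeval ξ f / aeval ξ g}

/-- the elements of `Ω` that lie in the image of a finite étale algebra over the subring `R` -/
def etSet (R : Subalgebra k Ω) : Set Ω :=
  {θ | ∃ (S : Type) (_ : CommRing S) (_ : Algebra R S), Module.Finite R S ∧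
    Algebra.Etale R S ∧ ∃ φ : S →ₐ[R] Ω, θ ∈ Set.range φ}

/-- the compositum `K_U` of all connected finite étale covers of the affine open set
`U : g ≠ 0`; for `U` normal the étale fundamental group of `U` is `Gal(K_U/K)` -/
def etCover (ξ : Fin (n + 1) → Ω) (e : ℕ) (g : MvPolynomial (Fin (n + 1)) k) :
    IntermediateField (funField k ξ) Ω :=
  adjoin (funField k ξ) (etSet k (coordRing k ξ e g))

variable (Ω) in
/-- the algebraic closure of `k` in `Ω` -/
abbrev kbar : IntermediateField k Ω := algebraicClosure k Ω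

/-- a continuous splitting of `Gal(K_U/K) → Gal(kbar/k)` -/
def IsSplitting (ξ : Fin (n + 1) → Ω) (e : ℕ) (g : MvPolynomial (Fin (n + 1)) k)
    (s : (kbar k Ω ≃ₐ[k] kbar k Ω) →*
      (etCover k ξ e g ≃ₐ[funField k ξ] etCover k ξ e g)) : Prop :=
  Continuous s ∧ ∀ (γ : kbar k Ω ≃ₐ[k] kbar k Ω) (θ : kbar k Ω)
    (h : (θ : Ω) ∈ etCover k ξ e g), ((s γ ⟨θ, h⟩ : etCover k ξ e g) : Ω) = (γ θ : Ω)

/-- the splitting condition: for every nonempty normal affine open set `U : g ≠ 0` of `X` the
projection `π₁(U) = Gal(K_U/K) → Gal(kbar/k)` has a continuous splitting -/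
def SplittingCondition (ξ : Fin (n + 1) → Ω) : Prop :=
  ∀ (e : ℕ) (g : MvPolynomial (Fin (n + 1)) k), 0 < e → g.IsHomogeneous e → aeval ξ g ≠ 0 →
    IsIntegrallyClosed (coordRing k ξ e g) → ∃ s, IsSplitting k ξ e g s

end geometry

/-- base change of an `R`-algebra along a ring homomorphism `R → E` -/
abbrev BC {R E : Type} [CommRing R] [CommRing E] (φ : R →+* E) (A : Type) [Ring A]
    [Algebra R A] : Type :=
  @TensorProduct R _ E A _ _ φ.toAlgebra.toModule _

section brauer

variable (k : Type) [Field k] {Ω : Type} [Field Ω] [Algebra k Ω] {n : ℕ}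

/-- the homomorphism `φ` from the coordinate ring of `g ≠ 0` is evaluation at the point `x` -/
def IsEval (ξ : Fin (n + 1) → Ω) (e : ℕ) (g : MvPolynomial (Fin (n + 1)) k)
    {E : Type} [Field E] [Algebra k E] (x : Fin (n + 1) → E) (φ : coordRing k ξ e g →+* E) :
    Prop :=
  (∀ a : k, φ (algebraMap k (coordRing k ξ e g) a) = algebraMap k E a) ∧
  ∀ (f : MvPolynomial (Fin (n + 1)) k) (_ : f.IsHomogeneous e)
    (h : aeval ξ f / aeval ξ g ∈ coordRing k ξ e g),
    φ ⟨aeval ξ f / aeval ξ g, h⟩ = aeval x f / aeval x g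

/-- a class in the Brauer group of `X`, represented by Azumaya algebras on the members of a
finite affine open cover with Brauer equivalent generic fibres -/
structure BrClass (ξ : Fin (n + 1) → Ω) where
  /-- the number of open sets -/
  N : ℕ
  /-- the degree of the form -/
  e : Fin N → ℕ
  /-- the form defining the open set -/
  g : Fin N → MvPolynomial (Fin (n + 1)) k
  e_pos : ∀ i, 0 < e i
  hom : ∀ i, (g i).IsHomogeneous (e i)
  ne : ∀ i, aeval ξ (g i) ≠ 0
  cover : ∀ x : Fin (n + 1) → Ω, OnX k ξ x → ∃ i, aeval x (g i) ≠ 0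
  /-- the algebra -/
  A : Fin N → Type
  [ring : ∀ i, Ring (A i)]
  [algebra : ∀ i, Algebra (coordRing k ξ (e i) (g i)) (A i)]
  azumaya : ∀ i, IsAzumaya (coordRing k ξ (e i) (g i)) (A i)
  same : ∀ (i j : Fin N) (φ : coordRing k ξ (e i) (g i) →+* funField k ξ)
    (ψ : coordRing k ξ (e j) (g j) →+* funField k ξ),
    (∀ z, (φ z : Ω) = z) → (∀ z, (ψ z : Ω) = z) →
    BrEq (funField k ξ) (BC φ (A i)) (BC ψ (A j))

attribute [instance] BrClass.ring BrClass.algebra

/-- the value of the class `α` at the point `x` over the extension `E` of `k` is the class of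
`E ⊗ B` -/
def ValueIs {ξ : Fin (n + 1) → Ω} (α : BrClass k ξ) {E : Type} [Field E] [Algebra k E]
    (x : Fin (n + 1) → E) (B : Type) [Ring B] [Algebra k B] : Prop :=
  ∀ (i : Fin α.N), aeval x (α.g i) ≠ 0 →
    ∀ φ : coordRing k ξ (α.e i) (α.g i) →+* E, IsEval k ξ (α.e i) (α.g i) x φ →
      BrEq E (BC φ (α.A i)) (E ⊗[k] B)

end brauer

end Pool.Agent.SB
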